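import Pool.Agent.Helper14.CV.StD

/-!
Module Low0 of CV: basic properties of degrees and lowering operators.
-/

set_option autoImplicit false

namespace Pool.Agent.Helper45.CV

open Pool.Agent.Helper14.CV

private lemma two_self (a : ZMod 2) : a + a = 0 := CharTwo.add_self_eq_zero a

private lemma eq_of_add {a b : ZMod 2} (h : a + b = 0) : a = b := CharTwo.add_eq_zero.1 h

private lemma dx_apply {q q' : ℕ} (F : Fn q q') (x : ZMod q) (y : ZMod q') :
    dx F x y = F (x + 1) y + F x y := rfl

private lemma dy_apply {q q' : ℕ} (F : Fn q q') (x : ZMod q) (y : ZMod q') :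
    dy F x y = F x (y + 1) + F x y := rfl

private lemma dxdy {q q' : ℕ} : (dx * dy : Module.End (ZMod 2) (Fn q q')) = dy * dx := by
  apply LinearMap.ext
  intro F
  funext x y
  rw [Module.End.mul_apply, Module.End.mul_apply, dx_apply, dy_apply, dy_apply, dy_apply,
    dx_apply, dx_apply]
  ring

private lemma dx_pow {q q' : ℕ} (n : ℕ) (F : Fn q q') (x : ZMod q) (y : ZMod q') :
    (dx ^ (2 ^ n) : Module.End (ZMod 2) (Fn q q')) F x y = F (x + 2 ^ n) y + F x y := by
  induction n generalizing F x with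
  | zero => rw [pow_zero, pow_one, dx_apply, pow_zero]
  | succ n ih =>
    rw [pow_succ, mul_two, pow_add, Module.End.mul_apply, ih, ih, ih,
      show x + 2 ^ n + 2 ^ n = x + 2 ^ n * 2 by ring, ← pow_succ]
    have h := two_self (F (x + 2 ^ n) y)
    linear_combination h

private lemma dy_pow {q q' : ℕ} (n : ℕ) (F : Fn q q') (x : ZMod q) (y : ZMod q') :
    (dy ^ (2 ^ n) : Module.End (ZMod 2) (Fn q q')) F x y = F x (y + 2 ^ n) + F x y := by
  induction n generalizing F y with
  | zero => rw [pow_zero, pow_one, dy_apply, pow_zero]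
  | succ n ih =>
    rw [pow_succ, mul_two, pow_add, Module.End.mul_apply, ih, ih, ih,
      show y + 2 ^ n + 2 ^ n = y + 2 ^ n * 2 by ring, ← pow_succ]
    have h := two_self (F x (y + 2 ^ n))
    linear_combination h

private lemma cast0 (r : ℕ) : (2 : ZMod (2 ^ r)) ^ r = 0 := by
  have h := ZMod.natCast_self (2 ^ r)
  push_cast at h
  exact h

private lemma dx_zero (r s : ℕ) :
    (dx ^ (2 ^ r) : Module.End (ZMod 2) (Fn (2 ^ r) (2 ^ s))) = 0 := by
  apply LinearMap.ext
  intro F
  funext x y
  rw [dx_pow, cast0, add_zero]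
  exact two_self _

private lemma dy_zero (r s : ℕ) :
    (dy ^ (2 ^ s) : Module.End (ZMod 2) (Fn (2 ^ r) (2 ^ s))) = 0 := by
  apply LinearMap.ext
  intro F
  funext x y
  rw [dy_pow, cast0, add_zero]
  exact two_self _

private lemma wd_mono {q q' : ℕ} {d d' : ℤ} (h : d ≤ d') :
    (Wd d : Submodule (ZMod 2) (Fn q q')) ≤ Wd d' :=
  fun _ hF i j hij => hF i j (lt_of_le_of_lt h hij)

private lemma low_dx {q q' : ℕ} : Low (dx : Module.End (ZMod 2) (Fn q q')) 1 := by
  intro d F hF i j hij
  have h1 : (dx ^ i * dy ^ j : Module.End (ZMod 2) (Fn q q')) (dx F) =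
      (dx ^ (i + 1) * dy ^ j : Module.End (ZMod 2) (Fn q q')) F := by
    rw [← Module.End.mul_apply, mul_assoc, pow_succ, mul_assoc]
    congr 2
    exact ((Commute.pow_right (show Commute (dx : Module.End (ZMod 2) (Fn q q')) dy from dxdy) j)).symm
  rw [h1]
  exact hF (i + 1) j (by push_cast; omega)

private lemma low_dy {q q' : ℕ} : Low (dy : Module.End (ZMod 2) (Fn q q')) 1 := by
  intro d F hF i j hij
  have h1 : (dx ^ i * dy ^ j : Module.End (ZMod 2) (Fn q q')) (dy F) =
      (dx ^ i * dy ^ (j + 1) : Module.End (ZMod 2) (Fn q q')) F := by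
    rw [← Module.End.mul_apply, mul_assoc, pow_succ]
  rw [h1]
  exact hF i (j + 1) (by push_cast; omega)

private lemma const_x {q q' : ℕ} [NeZero q] (F : Fn q q') (hF : dx F = 0) (x : ZMod q) (y : ZMod q') :
    F x y = F 0 y := by
  have h : ∀ n : ℕ, F (n : ZMod q) y = F 0 y := by
    intro n
    induction n with
    | zero => rw [Nat.cast_zero]
    | succ n ih =>
      have h1 := congrFun (congrFun hF (n : ZMod q)) y
      rw [dx_apply] at h1
      rw [Nat.cast_succ, eq_of_add h1, ih]
  have h2 := h x.val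
  rwa [ZMod.natCast_zmod_val] at h2

private lemma const_y {q q' : ℕ} [NeZero q'] (F : Fn q q') (hF : dy F = 0) (x : ZMod q) (y : ZMod q') :
    F x y = F x 0 := by
  have h : ∀ n : ℕ, F x (n : ZMod q') = F x 0 := by
    intro n
    induction n with
    | zero => rw [Nat.cast_zero]
    | succ n ih =>
      have h1 := congrFun (congrFun hF x) (n : ZMod q')
      rw [dy_apply] at h1
      rw [Nat.cast_succ, eq_of_add h1, ih]
  have h2 := h y.val
  rwa [ZMod.natCast_zmod_val] at h2

theorem hLow0 : StLow0 := by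
  intro r s
  refine ⟨?_, ?_, ?_, ?_, ?_, low_dx, low_dy, dxdy, dx_zero r s, dy_zero r s, ?_, ?_, ?_⟩
  · intro O O' k k' h h' d F hF
    have h1 := h _ _ (h' d F hF)
    rwa [show d - k' - k = d - (k + k') by ring] at h1
  · intro O O' k h h' d F hF
    exact Submodule.add_mem _ (h d F hF) (h' d F hF)
  · intro O k k' hk h d F hF
    exact wd_mono (by omega) (h d F hF)
  · intro d d' h
    exact wd_mono h
  · intro d F hF
    rw [sub_zero]
    exact hF
  · intro F i j hij
    have h1 : 2 ^ r ≤ i ∨ 2 ^ s ≤ j := by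
      by_contra hcon
      push Not at hcon
      obtain ⟨h2, h3⟩ := hcon
      have h4 : (i : ℤ) < 2 ^ r := by exact_mod_cast h2
      have h5 : (j : ℤ) < 2 ^ s := by exact_mod_cast h3
      omega
    rcases h1 with h | h
    · have h2 : (dx ^ i : Module.End (ZMod 2) (Fn (2 ^ r) (2 ^ s))) = 0 := by
        obtain ⟨e, rfl⟩ := Nat.exists_eq_add_of_le h
        rw [pow_add, dx_zero, zero_mul]
      rw [h2, zero_mul]
      rfl
    · have h2 : (dy ^ j : Module.End (ZMod 2) (Fn (2 ^ r) (2 ^ s))) = 0 := by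
        obtain ⟨e, rfl⟩ := Nat.exists_eq_add_of_le h
        rw [pow_add, dy_zero, zero_mul]
      rw [h2, mul_zero]
      rfl
  · intro F hF x y
    have h1 := hF 1 0 (by norm_num)
    have h2 := hF 0 1 (by norm_num)
    rw [pow_one, pow_zero, mul_one] at h1
    rw [pow_one, pow_zero, one_mul] at h2
    rw [const_x F h1 x y, const_y F h2 0 y]
  · intro F hF
    have h1 := hF 0 0 (by norm_num)
    rw [pow_zero, pow_zero, mul_one] at h1
    exact h1

end Pool.Agent.Helper45.CV
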